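import Mathlib
import Pool.Agent.Helper71_HNF.Stmt

/-! HNF: modules REC and CHN (helper8) -/

set_option autoImplicit false

namespace Pool.Agent.HNF.H8

open Pool.Agent.HNF

theorem last_visit (a : ℕ → ℕ) (ha : StrictMono a) (n k₀ : ℕ) (h : a k₀ < n) :
    ∃ k, k₀ ≤ k ∧ a k < n ∧ n ≤ a (k + 1) := by
  have hex : ∃ k, n ≤ a k := ⟨n, ha.le_apply⟩
  classical
  have h1 := Nat.find_spec hex
  have h2 : k₀ < Nat.find hex := by
    by_contra hc
    have := ha.monotone (not_lt.1 hc)
    omega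
  refine ⟨Nat.find hex - 1, by omega, ?_, ?_⟩
  · have := Nat.find_min hex (m := Nat.find hex - 1) (by omega)
    omega
  · rw [Nat.sub_add_cancel (by omega)]
    exact h1

theorem rec' : RecStmt := by
  intro n hn hd
  by_contra H
  -- the pattern is forbidden
  have Lem : ∀ i j kP k, n i j kP < n (!i) j k → n (!i) j k < n i j (kP + 1) →
      ∀ kN kO, n i j kP < n i (!j) kN → n i (!j) kN < n (!i) (!j) kO →
        n (!i) (!j) kO < n i j (kP + 1) → False := by
    intro i j kP k h1 h2 kN kO h3 h4 h5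
    obtain ⟨k', hk1, hk2, hk3⟩ := last_visit (n (!i) j) (hn (!i) j) _ k h2
    have hk4 : n (!i) j (k' + 1) ≠ n i j (kP + 1) := by
      apply hd
      cases i <;> simp
    have hk5 : n (!i) j k ≤ n (!i) j k' := (hn (!i) j).monotone hk1
    exact H ⟨i, j, kP, k', kN, kO, by omega, by omega, by omega, h3, h4, h5⟩
  -- a late time
  obtain ⟨T, hT⟩ : ∃ T, ∀ i j, n i j 0 < T := by
    refine ⟨n true true 0 + n true false 0 + n false true 0 + n false false 0 + 1, ?_⟩
    intro i j
    cases i <;> cases j <;> omega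
  have hlast : ∀ i j, ∃ k, n i j k < T ∧ T ≤ n i j (k + 1) := by
    intro i j
    obtain ⟨k, -, h1, h2⟩ := last_visit (n i j) (hn i j) T 0 (hT i j)
    exact ⟨k, h1, h2⟩
  choose l hl1 hl2 using hlast
  obtain ⟨⟨i, j⟩, -, hmin⟩ := Finset.exists_min_image (Finset.univ : Finset (Bool × Bool))
    (fun p => n p.1 p.2 (l p.1 p.2)) ⟨(true, true), Finset.mem_univ _⟩
  simp only [Finset.mem_univ, forall_const, Prod.forall] at hmin
  have hMN : ∀ i' j', (i, j) ≠ (i', j') → n i j (l i j) < n i' j' (l i' j') := by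
    intro i' j' hne
    have h1 := hmin i' j'
    have h2 := hd i j i' j' (l i j) (l i' j') hne
    omega
  have hM := hMN (!i) j (by cases i <;> simp)
  have hN := hMN i (!j) (by cases j <;> simp)
  have hO := hMN (!i) (!j) (by cases i <;> simp)
  have aM := hl1 (!i) j
  have aN := hl1 i (!j)
  have aO := hl1 (!i) (!j)
  have aP := hl2 i j
  -- last visits before the next visit of `P`
  obtain ⟨kM, hM1, hM2, hM3⟩ := last_visit (n (!i) j) (hn _ _) (n i j (l i j + 1)) (l (!i) j)
    (by omega)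
  obtain ⟨kN, hN1, hN2, hN3⟩ := last_visit (n i (!j)) (hn _ _) (n i j (l i j + 1)) (l i (!j))
    (by omega)
  obtain ⟨kO, hO1, hO2, hO3⟩ := last_visit (n (!i) (!j)) (hn _ _) (n i j (l i j + 1))
    (l (!i) (!j)) (by omega)
  have mM : n (!i) j (l (!i) j) ≤ n (!i) j kM := (hn _ _).monotone hM1
  have mN : n i (!j) (l i (!j)) ≤ n i (!j) kN := (hn _ _).monotone hN1
  have mO : n (!i) (!j) (l (!i) (!j)) ≤ n (!i) (!j) kO := (hn _ _).monotone hO1
  have dM : n (!i) j (kM + 1) ≠ n i j (l i j + 1) := hd _ _ _ _ _ _ (by cases i <;> simp)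
  have dN : n i (!j) (kN + 1) ≠ n i j (l i j + 1) := hd _ _ _ _ _ _ (by cases j <;> simp)
  have dO : n (!i) (!j) (kO + 1) ≠ n i j (l i j + 1) := hd _ _ _ _ _ _ (by cases i <;> simp)
  have dNO : n i (!j) kN ≠ n (!i) (!j) kO := hd _ _ _ _ _ _ (by cases i <;> simp)
  have dMO : n (!i) j kM ≠ n (!i) (!j) kO := hd _ _ _ _ _ _ (by cases j <;> simp)
  -- `o < nn`
  have hON : n (!i) (!j) kO < n i (!j) kN := by
    by_contra hc
    exact Lem i j (l i j) kM (by omega) (by omega) kN kO (by omega) (by omega) (by omega)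
  rcases lt_or_gt_of_ne dMO with hlt | hlt
  · -- `w < o`: target `M`
    have := Lem (!i) j kM (l i j + 1)
    simp only [Bool.not_not] at this
    exact this (by omega) (by omega) kO kN (by omega) (by omega) (by omega)
  · -- `o < w`: target `O`
    have := Lem (!i) (!j) kO kN
    simp only [Bool.not_not] at this
    exact this (by omega) (by omega) kM (l i j + 1) (by omega) (by omega) (by omega)

/-! ### CHN -/

theorem pidx_lt (u : Univ) (s : ℕ) : pidx (hist u s) < pidx (hist u (s + 1)) := by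
  have h1 : pidx (hist u (s + 1)) =
      3 * Nat.pair (pidx (hist u s)) (Nat.pair ((u s).1 + 1) (u s).2) := rfl
  have h2 := Nat.add_le_pair (pidx (hist u s)) (Nat.pair ((u s).1 + 1) (u s).2)
  have h3 := Nat.add_le_pair ((u s).1 + 1) (u s).2
  omega

theorem pidx_strictMono (u : Univ) : StrictMono (fun s => pidx (hist u s)) :=
  strictMono_nat_of_lt_succ (pidx_lt u)

theorem le_pidx (u : Univ) (s : ℕ) : (u s).1 ≤ pidx (hist u (s + 1)) := by
  have h1 : pidx (hist u (s + 1)) =
      3 * Nat.pair (pidx (hist u s)) (Nat.pair ((u s).1 + 1) (u s).2) := rfl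
  have h2 := Nat.add_le_pair (pidx (hist u s)) (Nat.pair ((u s).1 + 1) (u s).2)
  have h3 := Nat.add_le_pair ((u s).1 + 1) (u s).2
  omega

theorem nidx_pos (s : List (ℕ × ℕ)) (m : ℕ) (b : Bool) : 0 < nidx s m b := by
  unfold nidx
  split <;> omega

theorem nidx_inj {s s' : List (ℕ × ℕ)} {m m' : ℕ} {b b' : Bool} (h : nidx s m b = nidx s' m' b') :
    pidx s = pidx s' ∧ m = m' ∧ b = b' := by
  unfold nidx at h
  have h1 : Nat.pair (pidx s) m = Nat.pair (pidx s') m' ∧ b = b' := by
    cases b <;> cases b' <;> simp at h ⊢ <;> omega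
  have h2 := Nat.pair_eq_pair.1 h1.1
  exact ⟨h2.1, h2.2, h1.2⟩

/-- in a universe: the time at which a visible node is created -/
theorem vis_time (u : Univ) (t m' : ℕ) : ∀ s : ℕ, Vis (hist u s) t m' →
    ∃ s' < s, ∃ m b, t = nidx (hist u s') m b ∧ m ≤ (u s').1 ∧ m' ≤ (u s').1
  | 0, h => by
    have : hist u 0 = [] := rfl
    rw [this] at h
    cases h
  | s + 1, h => by
    have h1 : hist u (s + 1) = u s :: hist u s := rfl
    rw [h1] at h
    cases h with
    | here _ _ m b _ hm hm' => exact ⟨s, Nat.lt_succ_self s, m, b, rfl, hm, hm'⟩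
    | later _ _ _ _ h =>
      obtain ⟨s', hs', m, b, h2⟩ := vis_time u t m' s h
      exact ⟨s', by omega, m, b, h2⟩

theorem chn : ChnStmt := by
  intro G _ _ I hI N q D u x z n m c hc
  have hpos : ∀ k, 0 < c (k + 1) := fun k => by
    rw [(hc.node k).1]
    exact nidx_pos _ _ _
  have hI' := fun k => hI.1 _ _ _ _ (hc.node k)
  have hpar : ∀ k, I.par (c (k + 1)) = c k := fun k => (hI' k).1.trans (hc.par k)
  have hth : ∀ k, I.th (c (k + 1)) = pidx (hist u (n k)) := fun k => (hI' k).2.1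
  have hkey : ∀ k, n k < n (k + 1) ∧ m k ≤ (u (n k)).1 ∧ I.mp (c (k + 2)) ≤ (u (n k)).1 := by
    intro k
    have h1 := (hc.node (k + 1)).2.2
    have h2 := hc.par (k + 1)
    rw [h2] at h1
    rcases h1 with h1 | h1
    · have := hpos k
      omega
    · obtain ⟨s', hs', m', b', h3, h4, h5⟩ := vis_time u _ _ _ h1
      rw [(hc.node k).1] at h3
      obtain ⟨h6, h7, h8⟩ := nidx_inj h3
      have h9 : n k = s' := (pidx_strictMono u).injective h6
      subst h9
      subst h7
      refine ⟨hs', h4, ?_⟩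
      rw [(hI' (k + 1)).2.2.2]
      exact h5
  refine ⟨strictMono_nat_of_lt_succ fun k => (hkey k).1, hpos, hpar, hth, ?_, ?_⟩
  · intro k s hs
    have h1 : pidx (hist u (n k + 1)) ≤ pidx (hist u s) := (pidx_strictMono u).monotone hs
    refine lt_of_lt_of_le ?_ h1
    rw [(hc.node k).1]
    have h2 : pidx (hist u (n k + 1)) =
      3 * Nat.pair (pidx (hist u (n k))) (Nat.pair ((u (n k)).1 + 1) (u (n k)).2) := rfl
    rw [h2]
    have h3 := Nat.add_le_pair ((u (n k)).1 + 1) (u (n k)).2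
    have h4 := (hkey k).2.1
    have h5 : Nat.pair (pidx (hist u (n k))) (m k) <
        Nat.pair (pidx (hist u (n k))) (Nat.pair ((u (n k)).1 + 1) (u (n k)).2) :=
      Nat.pair_lt_pair_right _ (by omega)
    unfold nidx
    split <;> omega
  · intro k s hs
    have h1 : pidx (hist u (n k + 1)) ≤ pidx (hist u s) := (pidx_strictMono u).monotone hs
    have h2 := le_pidx u (n k)
    have h3 := (hkey k).2.2
    omega

end Pool.Agent.HNF.H8
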